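import Pool.Agent.H7.GU.Stmts
import Pool.Agent.H66.KQ.TRV

/-!
# Board gu8, row LIP: the local inequality with the debts
-/

set_option autoImplicit false

open Finset

namespace Pool.GU7

open Pool.Agent.H23.KT Pool.Agent.H46.KW Pool.KQ Pool.GT7

section

variable {V : Type} [DecidableEq V] (G : SimpleGraph V)

theorem LIP8_filter (X U : Finset V) (hXU : Disjoint X U) (b : ℕ) :
    (clq G (X ∪ U) b).filter (fun L => Disjoint L U) = clq G X b := by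
  ext L
  rw [mem_filter, mem_clq, mem_clq]
  constructor
  · rintro ⟨⟨h1, h2, h3⟩, h4⟩
    refine ⟨fun y hy => ?_, h2, h3⟩
    rcases mem_union.1 (h1 hy) with h | h
    · exact h
    · exact absurd h (disjoint_left.1 h4 hy)
  · rintro ⟨h1, h2, h3⟩
    exact ⟨⟨h1.trans subset_union_left, h2, h3⟩, disjoint_of_subset_left h1 hXU⟩

theorem LIP8_split (F : Finset V → ℝ) (r : ℝ) (X U : Finset V) (hXU : Disjoint X U) (b : ℕ) :
    ∑ L ∈ clq G (X ∪ U) b, min r (F L) ≤ ∑ L ∈ clq G X b, min r (F L) +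
      r * (((clq G (X ∪ U) b).filter (fun L => ¬ Disjoint L U)).card : ℝ) := by
  rw [← sum_filter_add_sum_filter_not (clq G (X ∪ U) b) (fun L => Disjoint L U),
    LIP8_filter G X U hXU b]
  have h : ∑ L ∈ (clq G (X ∪ U) b).filter (fun L => ¬ Disjoint L U), min r (F L) ≤
      ((clq G (X ∪ U) b).filter (fun L => ¬ Disjoint L U)).card • r :=
    sum_le_card_nsmul _ _ _ fun L _ => min_le_left _ _
  rw [nsmul_eq_mul] at h
  linarith

theorem LIP8_card {b : ℕ} (P : Fin b → Finset V) (hP : Par G P) :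
    (un P).card = ∑ i, (P i).card :=
  card_biUnion fun i _ j _ hij => hP.dis i j hij

theorem LIP8_prod {b : ℕ} (P : Fin b → Finset V) (hP : Par G P) :
    (kc G (un P) b : ℝ) ≤ ∏ i, ((P i).card : ℝ) := by
  rw [(trv_thm G P hP).1]
  have h : (trv G P).card ≤ ∏ i, (P i).card := by
    rw [← Fintype.card_piFinset]
    exact card_le_card fun f hf => Fintype.mem_piFinset.2 ((trv_mem G P f).1 hf).1
  exact_mod_cast h

end

theorem LIP8_bal (p r a : ℕ) (hr : r ≤ p) :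
    (bal (p + 3) ((p + 3) * a + r) : ℝ) = (a : ℝ) ^ (p + 3 - r) * ((a : ℝ) + 1) ^ r := by
  unfold bal
  rw [Nat.mul_add_div (by omega), Nat.div_eq_of_lt (by omega : r < p + 3), Nat.mul_add_mod,
    Nat.mod_eq_of_lt (by omega : r < p + 3)]
  push_cast
  ring

theorem LIP8_e1 (p : ℕ) : 0 < e1 p ∧ e1 p ≤ 1 := by
  unfold e1
  have h : (1 : ℝ) ≤ 16 * ((p : ℝ) + 3) ^ 3 := by
    have h1 : (1 : ℝ) ≤ ((p : ℝ) + 3) ^ 3 := one_le_pow₀ (by linarith [p.cast_nonneg (α := ℝ)])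
    linarith
  exact ⟨by positivity, (div_le_one (by linarith)).2 h⟩

theorem LIP8_et (p w : ℕ) (hw : w ≤ p) : 0 < et p w ∧ et p w ≤ 1 := by
  obtain ⟨h1, h2⟩ := LIP8_e1 p
  have hc : (1 : ℝ) ≤ (p + 2).choose (w + 1) := by
    exact_mod_cast Nat.choose_pos (by omega : w + 1 ≤ p + 2)
  have h3 : (1 : ℝ) ≤ ((p : ℝ) + 3) ^ 3 := one_le_pow₀ (by linarith [p.cast_nonneg (α := ℝ)])
  have h4 : (1 : ℝ) ≤ (w : ℝ) + 2 := by linarith [w.cast_nonneg (α := ℝ)]
  have h5 : (1 : ℝ) ≤ 256 * ((p : ℝ) + 3) ^ 3 * ((w : ℝ) + 2) * (p + 2).choose (w + 1) := by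
    have h6 : (1 : ℝ) ≤ 256 * ((p : ℝ) + 3) ^ 3 := by linarith
    have h7 := one_le_mul_of_one_le_of_one_le h6 h4
    exact one_le_mul_of_one_le_of_one_le h7 hc
  unfold et
  exact ⟨div_pos h1 (by linarith), (div_le_one (by linarith)).2 (h2.trans h5)⟩

/-- The last step if `x ≤ r`. -/
theorem LIP8_num1 {l Lv B kW N Pi x h2 x2 T SW SX mmS rM kX2 kW2 s1 s0 R nds TTv esv A u η c1 c2 c3
    K1 HK r δ K4a K4b mx : ℝ}
    (hl : 0 < l) (hL : 0 < Lv) (hN : 0 ≤ N) (hx : 0 ≤ x) (hη : 0 < η)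
    (hmx : 0 ≤ mx) (hNkW : N ≤ kW) (hNPi : N ≤ Pi) (i2 : SW ≤ SX + rM)
    (i3 : SX + (1 - η) * T ≤ x * N + mmS - η / 2 * T - η / 2 * mx * N)
    (i4 : Lv * rM ≤ 2 * r * u * (Lv * T) + δ * K4a * A * u)
    (i5 : kW2 ≤ kX2 + s1 + s0 + R)
    (i6 : s1 ≤ nds + (1 - η) * (1 + 2 * K1 * u) * (Lv * T))
    (i7 : s0 ≤ h2 * (c2 + 1 / 4) * A + HK * u * (Lv * T))
    (i8 : R ≤ δ * K4b * A * u)
    (i9 : Lv * mmS + l * (Pi - N) + kX2 ≤ esv)
    (i10 : (Lv * T) * ((1 - η) * (1 + 2 * K1 * u) + HK * u + 2 * r * u) ≤ (Lv * T) * (1 - η / 2))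
    (hS : l * (B - Pi) + Lv * x * Pi + (2 * c1 - c2 - 1 / 2) * x2 * A ≤ TTv - esv)
    (i12 : (2 * c1 - c2 - 1 / 2) * h2 * A ≤ (2 * c1 - c2 - 1 / 2) * x2 * A)
    (hc : c1 = c2 + c3)
    (i13 : δ * K4a * A * u + δ * K4b * A * u ≤ 1 / 4 * h2 * A) :
    l * (B - kW) + Lv * SW + (2 * c3 - 1) * h2 * A ≤ TTv - kW2 + nds := by
  have j1 : l * N ≤ l * kW := mul_le_mul_of_nonneg_left hNkW hl.le
  have j2 : Lv * SW ≤ Lv * (SX + rM) := mul_le_mul_of_nonneg_left i2 hL.le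
  have j3 := mul_le_mul_of_nonneg_left i3 hL.le
  have j4 : 0 ≤ Lv * (η / 2 * mx * N) := by positivity
  have j5 : Lv * x * N ≤ Lv * x * Pi := mul_le_mul_of_nonneg_left hNPi (by positivity)
  subst hc
  linarith

/-- The last step if `x > r`. -/
theorem LIP8_num2 {l Lv B kW N Pi x h2 T SW SX mmS rM kX2 kW2 s1 s0 R nds TTv esv A u η c2 c3
    K1 HK r δ K4a K4b KX : ℝ}
    (hl : 0 < l) (hL : 0 < Lv) (hη1 : η ≤ 1) (hr : 0 ≤ r)
    (hxr : r ≤ x) (hNkW : N ≤ kW) (hNPi : N ≤ Pi) (i2 : SW ≤ SX + rM)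
    (i3 : SX + (1 - η) * T ≤ x * N + mmS - η / 2 * T - η / 2 * (x - r) * N)
    (i4 : Lv * rM ≤ 2 * r * u * (Lv * T) + δ * K4a * A * u)
    (i5 : kW2 ≤ kX2 + s1 + s0 + R)
    (i6 : s1 ≤ nds + (1 - η) * (1 + 2 * K1 * u) * (Lv * T))
    (i7 : s0 ≤ h2 * (c2 + 1 / 4) * A + HK * u * (Lv * T))
    (i8 : R ≤ δ * K4b * A * u)
    (i9 : Lv * mmS + l * (Pi - N) + kX2 ≤ esv)
    (i10 : (Lv * T) * ((1 - η) * (1 + 2 * K1 * u) + HK * u + 2 * r * u) ≤ (Lv * T) * (1 - η / 2))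
    (hS : l * (B - Pi) + Lv * (x - η / 2 * (x - r)) * Pi + KX * A ≤ TTv - esv)
    (i13 : h2 * (c2 + 1 / 4) * A + (2 * c3 - 1) * h2 * A + δ * K4a * A * u + δ * K4b * A * u ≤
      KX * A) :
    l * (B - kW) + Lv * SW + (2 * c3 - 1) * h2 * A ≤ TTv - kW2 + nds := by
  have j1 : l * N ≤ l * kW := mul_le_mul_of_nonneg_left hNkW hl.le
  have j2 : Lv * SW ≤ Lv * (SX + rM) := mul_le_mul_of_nonneg_left i2 hL.le
  have j3 := mul_le_mul_of_nonneg_left i3 hL.le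
  have j4 : 0 ≤ x - η / 2 * (x - r) := by
    have h1 : η / 2 * (x - r) ≤ 1 * (x - r) :=
      mul_le_mul_of_nonneg_right (by linarith) (by linarith)
    linarith
  have j5 : Lv * (x - η / 2 * (x - r)) * N ≤ Lv * (x - η / 2 * (x - r)) * Pi :=
    mul_le_mul_of_nonneg_left hNPi (by positivity)
  linarith

theorem LIP_thm (hCCK : CCK0Stmt) (hKU : KU0Stmt) (hDKU : DKUStmt) (hDML : DMLStmt)
    (hXSP : XSP0Stmt) (hNET : NET0Stmt) (hSIZ : SIZ0Stmt) (hXGR : XGR0Stmt) (hLMB : LMB0Stmt)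
    (_hGCO : GCO0Stmt) : LIPStmt := by
  intro p w r hp8
  have hr2 := hp8.r2
  have hrb := hp8.rb
  have hwp := hp8.wp
  have hrp : r ≤ p := by omega
  have hp0 : Pr0 p w r := ⟨hp8.wp, by omega, hrp⟩
  have h3r : 3 * r ≤ (w + 1) * (p + 3 - r) :=
    calc 3 * r ≤ 1 * (p + 3 - r) := by omega
      _ ≤ (w + 1) * (p + 3 - r) := Nat.mul_le_mul_right _ (by omega)
  obtain ⟨hη0, hη1⟩ := LIP8_et p w hp8.wp
  obtain ⟨he10, he11⟩ := LIP8_e1 p
  obtain ⟨K1, hK1, hLM⟩ := hLMB p w r hp0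
  obtain ⟨aS, hS⟩ := hSIZ p w r hp0
  obtain ⟨aN, hN⟩ := hNET p w r hp0 h3r
  obtain ⟨e0, he0, hX⟩ := hXGR p w r hp0 (et p w) hη0 hη1
  refine ⟨min e0 (e1 p / 2), lt_min he0 (by linarith), ?_⟩
  intro e he hee C hC
  have hee0 : e ≤ e0 := hee.trans (min_le_left _ _)
  have hee1 : e ≤ e1 p / 2 := hee.trans (min_le_right _ _)
  have he12 : e ≤ 1 / 2 := by linarith
  obtain ⟨H, hH⟩ : ∃ H : ℕ, C ≤ H := exists_nat_ge C
  obtain ⟨c1, hc1⟩ : ∃ c1 : ℝ, c1 = (p + 2).choose (w + 1) := ⟨_, rfl⟩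
  obtain ⟨c2, hc2⟩ : ∃ c2 : ℝ, c2 = (p + 1).choose w := ⟨_, rfl⟩
  obtain ⟨c3, hc3⟩ : ∃ c3 : ℝ, c3 = (p + 1).choose (w + 1) := ⟨_, rfl⟩
  have hcc : c1 = c2 + c3 := by
    rw [hc1, hc2, hc3, Nat.choose_succ_succ (p + 1) w]
    push_cast
    ring
  have hc1' : 1 ≤ c1 := by
    rw [hc1]
    exact_mod_cast Nat.choose_pos (by omega : w + 1 ≤ p + 2)
  have hc2' : 1 ≤ c2 := by
    rw [hc2]
    exact_mod_cast Nat.choose_pos (by omega : w ≤ p + 1)
  have hc3' : 0 ≤ c3 := by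
    rw [hc3]
    positivity
  obtain ⟨D, hD⟩ : ∃ D : ℝ, D = 2 * (p : ℝ) + 4 := ⟨_, rfl⟩
  have hD0 : 0 ≤ D := by
    rw [hD]
    positivity
  obtain ⟨K2, hK2⟩ : ∃ K : ℝ, K = 2 ^ (p + 5) * ((p : ℝ) + 3) := ⟨_, rfl⟩
  have hK20 : 0 ≤ K2 := by
    rw [hK2]
    positivity
  obtain ⟨K4a, hK4a⟩ : ∃ K : ℝ, K = r * (2 ^ H * D ^ (p + 1)) * (2 * c1) := ⟨_, rfl⟩
  have hK4a0 : 0 ≤ K4a := by
    rw [hK4a]
    positivity
  obtain ⟨K4b, hK4b⟩ : ∃ K : ℝ, K = 2 ^ H * D ^ w * 2 := ⟨_, rfl⟩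
  have hK4b0 : 0 ≤ K4b := by
    rw [hK4b]
    positivity
  obtain ⟨K5, hK5⟩ : ∃ K : ℝ, K = 2 * K1 + H * K2 + 2 * r := ⟨_, rfl⟩
  obtain ⟨KX, hKX⟩ : ∃ K : ℝ, K = (H : ℝ) ^ 2 * (c2 + 1 / 4) + (H : ℝ) ^ 2 * (2 * c3) + K4a + K4b :=
    ⟨_, rfl⟩
  obtain ⟨aX, hX'⟩ := hX e KX he hee0
  obtain ⟨a1, ha1⟩ : ∃ a1 : ℕ,
      max (2 * K1) (max (2 * K5 / et p w) (4 * (K4a + K4b))) ≤ a1 := exists_nat_ge _
  refine ⟨max (max aS aN) (max (max aX 1) a1), ?_⟩
  intro a ha V _ G W P U hstr hCB hW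
  have haS : aS ≤ a := (le_max_left _ _).trans ((le_max_left _ _).trans ha)
  have haN : aN ≤ a := (le_max_right _ _).trans ((le_max_left _ _).trans ha)
  have haX : aX ≤ a :=
    (le_max_left _ _).trans ((le_max_left _ _).trans ((le_max_right _ _).trans ha))
  have ha0 : 1 ≤ a :=
    (le_max_right _ _).trans ((le_max_left _ _).trans ((le_max_right _ _).trans ha))
  have ha1' : max (2 * K1) (max (2 * K5 / et p w) (4 * (K4a + K4b))) ≤ (a : ℝ) := by
    refine ha1.trans ?_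
    exact_mod_cast (le_max_right _ _).trans ((le_max_right _ _).trans ha)
  have haR : (1 : ℝ) ≤ a := by exact_mod_cast ha0
  have ha00 : (0 : ℝ) < a := by linarith
  obtain ⟨u, hu⟩ : ∃ u : ℝ, u = 1 / a := ⟨_, rfl⟩
  have hua : u * a = 1 := by
    rw [hu]
    field_simp
  have hu0 : 0 < u := by
    rw [hu]
    positivity
  have hu1 : u ≤ 1 := by
    rw [hu]
    exact (div_le_one ha00).2 haR
  have hmul : ∀ k c : ℝ, k ≤ c * a → k * u ≤ c := by
    intro k c hk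
    have h1 := mul_le_mul_of_nonneg_right hk hu0.le
    have h2 : c * a * u = c := by linear_combination c * hua
    linarith
  have hKu1 : K1 * u ≤ 1 / 2 := hmul _ _ (by linarith [(le_max_left _ _).trans ha1'])
  have hKu5 : K5 * u ≤ et p w / 2 := by
    apply hmul
    have h1 : 2 * K5 / et p w ≤ a := (le_max_left _ _).trans ((le_max_right _ _).trans ha1')
    rw [div_le_iff₀ hη0] at h1
    linarith
  have hKu4 : (K4a + K4b) * u ≤ 1 / 4 :=
    hmul _ _ (by linarith [(le_max_right _ _).trans ((le_max_right _ _).trans ha1')])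
  -- the sets
  have hWu : W = un P ∪ U := by
    ext v
    rw [mem_union, hstr.cov v, un, mem_biUnion]
    constructor
    · rintro (h | ⟨i, h⟩)
      · exact Or.inr h
      · exact Or.inl ⟨i, mem_univ _, h⟩
    · rintro (⟨i, _, h⟩ | h)
      · exact Or.inr ⟨i, h⟩
      · exact Or.inl h
  have hdis : Disjoint (un P) U := by
    rw [un, disjoint_biUnion_left]
    intro i _
    exact hstr.disU i
  subst hWu
  have hcardW : (un P ∪ U).card = (un P).card + U.card := card_union_of_disjoint hdis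
  obtain ⟨x, hx⟩ : ∃ x : ℕ, (un P).card + x = (p + 3) * a + r :=
    ⟨(p + 3) * a + r - (un P).card, by omega⟩
  have hUx : U.card ≤ x := by omega
  have hUH : U.card ≤ H := by
    exact_mod_cast hstr.cU.trans hH
  have hxR : ((((p + 3) * a + r : ℕ) : ℝ)) - ((un P).card : ℝ) = x := by
    have h : (((un P).card + x : ℕ) : ℝ) = (((p + 3) * a + r : ℕ) : ℝ) := by rw [hx]
    push_cast at h ⊢
    linarith
  have hcardX := LIP8_card G P hstr.par
  have hX0 : (0 : ℝ) ≤ ((un P).card : ℝ) + 1 := add_nonneg (Nat.cast_nonneg _) zero_le_one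
  have hXD : ((un P).card : ℝ) + 1 ≤ D * a := by
    have h1 : (((un P).card + 1 : ℕ) : ℝ) ≤ (((p + 3) * a + r + 1 : ℕ) : ℝ) := by
      exact_mod_cast (by omega : (un P).card + 1 ≤ (p + 3) * a + r + 1)
    have h2 : (r : ℝ) ≤ p := by exact_mod_cast hrp
    have h3 : ((p : ℝ) + 1) * 1 ≤ ((p : ℝ) + 1) * a :=
      mul_le_mul_of_nonneg_left haR (by positivity)
    push_cast at h1
    rw [hD]
    linarith
  have hXa : 1 ≤ 2 * u * (((un P).card : ℝ) + 1) := by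
    have h1 := hstr.lo 0
    have h2 : ((P 0).card : ℝ) ≤ (un P).card := by
      exact_mod_cast card_le_card (subset_biUnion_of_mem P (mem_univ 0))
    have h3 : (1 / 2 : ℝ) * a ≤ (1 - e) * a := mul_le_mul_of_nonneg_right (by linarith) ha00.le
    have h4 : (1 / 2 : ℝ) * a ≤ ((un P).card : ℝ) + 1 := by linarith
    have h5 := mul_le_mul_of_nonneg_left h4 (by positivity : 0 ≤ 2 * u)
    have h6 : 2 * u * (1 / 2 * a) = 1 := by linear_combination hua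
    linarith
  -- the factor
  obtain ⟨hL1, hL2, hl, hL, hlL, -⟩ := hLM a ha0
  have hKa : K1 / (a : ℝ) = K1 * u := by
    rw [hu]
    ring
  rw [hKa, ← hc1] at hL1 hL2
  obtain ⟨Lv, hLv⟩ : ∃ l : ℝ, l = Lm p w r a := ⟨_, rfl⟩
  obtain ⟨l, hlv⟩ : ∃ l : ℝ, l = lam p w r a := ⟨_, rfl⟩
  rw [← hLv] at hL1 hL2 hL
  rw [← hlv] at hl
  obtain ⟨A, hA⟩ : ∃ A : ℝ, A = (a : ℝ) ^ w := ⟨_, rfl⟩
  have hA0 : 0 < A := by
    rw [hA]
    positivity
  have hA1 : (a : ℝ) ^ (w + 1) = A * a := by rw [hA, pow_succ]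
  obtain ⟨B, hB⟩ : ∃ B : ℝ, B = (a : ℝ) ^ (p + 3) := ⟨_, rfl⟩
  have hB0 : 0 < B := by
    rw [hB]
    positivity
  rw [← hB, hA1] at hL1 hL2
  obtain ⟨q, hq⟩ : ∃ q : ℝ, q = c1 * (A * a) / B := ⟨_, rfl⟩
  have hq0 : 0 ≤ q := by
    rw [hq]
    positivity
  have hqL : q ≤ (1 + 2 * K1 * u) * Lv := by
    have h1 : (1 - K1 * u) * q ≤ Lv := by
      rw [hq, ← mul_div_assoc, div_le_iff₀ hB0]
      exact hL1
    have hKu0 : 0 ≤ K1 * u := by positivity
    have h2 : q ≤ (1 + 2 * K1 * u) * ((1 - K1 * u) * q) := by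
      have h3 : 0 ≤ K1 * u * (1 - 2 * (K1 * u)) := mul_nonneg hKu0 (by linarith)
      have h4 := mul_nonneg h3 hq0
      linarith
    exact h2.trans (mul_le_mul_of_nonneg_left h1 (by positivity))
  have hv : A / B ≤ 2 * u * Lv := by
    have h1 : A / B ≤ u * q := by
      have h2 : u * q = c1 * (A / B) := by
        rw [hq]
        field_simp
        linear_combination hua
      rw [h2]
      exact le_mul_of_one_le_left (by positivity) hc1'
    have h3 : q ≤ 2 * Lv :=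
      hqL.trans (mul_le_mul_of_nonneg_right (by linarith) hL.le)
    have h4 := mul_le_mul_of_nonneg_left h3 hu0.le
    linarith
  have hLa : Lv * (a : ℝ) ^ (p + 1) ≤ 2 * c1 * A * u := by
    have h1 : Lv * B ≤ 2 * (c1 * (A * a)) :=
      hL2.trans (mul_le_mul_of_nonneg_right (by linarith) (by positivity))
    have h2 := mul_le_mul_of_nonneg_right h1 (by positivity : 0 ≤ u ^ 2)
    have h3 : Lv * B * u ^ 2 = Lv * (a : ℝ) ^ (p + 1) := by
      have h4 : B = (a : ℝ) ^ (p + 1) * a ^ 2 := by rw [hB, ← pow_add]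
      rw [h4]
      linear_combination (Lv * (a : ℝ) ^ (p + 1) * (u * a + 1)) * hua
    have h5 : 2 * (c1 * (A * a)) * u ^ 2 = 2 * c1 * A * u := by
      linear_combination (2 * c1 * A * u) * hua
    linarith
  -- the vertices of `U`
  have hTz : ∀ z ∈ U, 0 ≤ TZ G p r (un P) z := by
    intro z hz
    have h := (hCCK G p w r a e C _ P U hp0 hstr he.le hee1 hCB z hz).2.2.2
    have h1 : (0 : ℝ) ≤ cc G p (un P) (p + 2) z := Nat.cast_nonneg _
    have h2 : (0 : ℝ) ≤ cc G p (un P) (p + 1) z := Nat.cast_nonneg _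
    linarith
  have hκ2 : ∀ z ∈ U, (kc G (nb G (un P) z) (p + 2) : ℝ) ≤ 2 * u * TZ G p r (un P) z := by
    intro z hz
    obtain ⟨-, -, h3, h4⟩ := hCCK G p w r a e C _ P U hp0 hstr he.le hee1 hCB z hz
    have h2 : (0 : ℝ) ≤ cc G p (un P) (p + 1) z := Nat.cast_nonneg _
    have h5 : (a : ℝ) / 2 * kc G (nb G (un P) z) (p + 2) ≤ TZ G p r (un P) z := by linarith
    have h6 := mul_le_mul_of_nonneg_left h5 (by positivity : 0 ≤ 2 * u)
    have h7 : 2 * u * ((a : ℝ) / 2 * kc G (nb G (un P) z) (p + 2)) =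
        kc G (nb G (un P) z) (p + 2) := by
      linear_combination (kc G (nb G (un P) z) (p + 2) : ℝ) * hua
    linarith
  have hκ1 : ∀ z ∈ U, (kc G (nb G (un P) z) (w + 1) : ℝ) ≤ nd G p w r a (un P) z +
      (1 - et p w) * (1 + 2 * K1 * u) * (Lv * TZ G p r (un P) z) := by
    intro z hz
    have h1 : (kc G (nb G (un P) z) (w + 1) : ℝ) -
        (1 - et p w) * q * TZ G p r (un P) z ≤ nd G p w r a (un P) z := by
      unfold nd
      rw [hq, hc1, hB, ← hA1]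
      exact le_max_right _ _
    have h2 : (1 - et p w) * q * TZ G p r (un P) z ≤
        (1 - et p w) * ((1 + 2 * K1 * u) * Lv) * TZ G p r (un P) z :=
      mul_le_mul_of_nonneg_right (mul_le_mul_of_nonneg_left hqL (by linarith)) (hTz z hz)
    linarith
  have hκ0 : ∀ z ∈ U, (kc G (nb G (un P) z) w : ℝ) ≤
      (c2 + 1 / 4) * A + K2 * u * (Lv * TZ G p r (un P) z) := by
    intro z hz
    have h1 := hKU G p w r a e C _ P U hp8 hstr he.le hee1 hCB z hz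
    rw [← hA, ← hB, ← hc2] at h1
    have h2 : (kc G (nb G (un P) z) w : ℝ) ≤ A * ((c2 + 1 / 4) * B +
        2 ^ (p + 4) * ((p : ℝ) + 3) * TZ G p r (un P) z) / B := by
      rw [le_div_iff₀ hB0]
      exact h1
    have h3 : A * ((c2 + 1 / 4) * B + 2 ^ (p + 4) * ((p : ℝ) + 3) * TZ G p r (un P) z) / B =
        (c2 + 1 / 4) * A + 2 ^ (p + 4) * ((p : ℝ) + 3) * TZ G p r (un P) z * (A / B) := by
      field_simp
    have h4 : 2 ^ (p + 4) * ((p : ℝ) + 3) * TZ G p r (un P) z * (A / B) ≤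
        2 ^ (p + 4) * ((p : ℝ) + 3) * TZ G p r (un P) z * (2 * u * Lv) :=
      mul_le_mul_of_nonneg_left hv (mul_nonneg (by positivity) (hTz z hz))
    have h5 : 2 ^ (p + 4) * ((p : ℝ) + 3) * TZ G p r (un P) z * (2 * u * Lv) =
        K2 * u * (Lv * TZ G p r (un P) z) := by
      rw [hK2]
      ring
    linarith
  obtain ⟨T, hT⟩ : ∃ T : ℝ, T = ∑ z ∈ U, TZ G p r (un P) z := ⟨_, rfl⟩
  have hT0 : 0 ≤ T := by
    rw [hT]
    exact sum_nonneg hTz
  have hLT : Lv * T = ∑ z ∈ U, Lv * TZ G p r (un P) z := by rw [hT, mul_sum]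
  have hLT0 : 0 ≤ Lv * T := by positivity
  obtain ⟨δ, hδ⟩ : ∃ δ : ℝ, δ = if U.card ≤ 1 then 0 else 1 := ⟨_, rfl⟩
  have hδ0 : 0 ≤ δ := by
    rw [hδ]
    split_ifs <;> norm_num
  have hδ1 : δ ≤ 1 := by
    rw [hδ]
    split_ifs <;> norm_num
  obtain ⟨h2, hh2⟩ : ∃ h : ℝ, h = (U.card.choose 2 : ℝ) := ⟨_, rfl⟩
  have hh20 : 0 ≤ h2 := by
    rw [hh2]
    positivity
  have hh2c : h2 = (U.card : ℝ) * ((U.card : ℝ) - 1) / 2 := by
    rw [hh2, Nat.cast_choose_two]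
  have hδh : δ ≤ h2 := by
    rw [hδ]
    split_ifs with h
    · exact hh20
    · rw [hh2]
      exact_mod_cast Nat.choose_pos (by omega : 2 ≤ U.card)
  have hUHR : (U.card : ℝ) ≤ H := by exact_mod_cast hUH
  have hh2H : h2 ≤ (H : ℝ) ^ 2 := by
    have h1 : (U.card : ℝ) * U.card ≤ H * H :=
      mul_le_mul hUHR hUHR (by positivity) (by positivity)
    have h3 : (0 : ℝ) ≤ U.card := Nat.cast_nonneg _
    rw [hh2c]
    nlinarith
  -- cliques meeting `U`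
  obtain ⟨M, hM⟩ : ∃ M : ℝ, M =
      (((clq G (un P ∪ U) (p + 3)).filter (fun L => ¬ Disjoint L U)).card : ℝ) := ⟨_, rfl⟩
  have hM1 : M ≤ 2 * u * T + δ * (2 ^ H * (D * a) ^ (p + 1)) := by
    have h1 := hDML G (un P) U p hdis
    rw [← hM] at h1
    have h3 : ∑ z ∈ U, (kc G (nb G (un P) z) (p + 2) : ℝ) ≤ 2 * u * T := by
      rw [hT, mul_sum]
      exact sum_le_sum hκ2
    have h4 : (if U.card ≤ 1 then 0 else (2 : ℝ) ^ U.card * (((un P).card : ℝ) + 1) ^ (p + 1)) ≤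
        δ * (2 ^ H * (D * a) ^ (p + 1)) := by
      rw [hδ]
      split_ifs
      · rw [zero_mul]
      · rw [one_mul]
        exact mul_le_mul (pow_le_pow_right₀ (by norm_num) hUH)
          (pow_le_pow_left₀ hX0 hXD _) (pow_nonneg hX0 _) (by positivity)
    linarith
  have i4 : Lv * (r * M) ≤ 2 * r * u * (Lv * T) + δ * K4a * A * u := by
    have h1 := mul_le_mul_of_nonneg_left hM1 (by positivity : 0 ≤ Lv * r)
    have h3 : δ * r * 2 ^ H * D ^ (p + 1) * (Lv * (a : ℝ) ^ (p + 1)) ≤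
        δ * r * 2 ^ H * D ^ (p + 1) * (2 * c1 * A * u) :=
      mul_le_mul_of_nonneg_left hLa (by positivity)
    have h4 : Lv * r * (2 * u * T + δ * (2 ^ H * (D * a) ^ (p + 1))) =
        2 * r * u * (Lv * T) + δ * r * 2 ^ H * D ^ (p + 1) * (Lv * (a : ℝ) ^ (p + 1)) := by
      rw [mul_pow]
      ring
    have h5 : δ * r * 2 ^ H * D ^ (p + 1) * (2 * c1 * A * u) = δ * K4a * A * u := by
      rw [hK4a]
      ring
    linarith
  -- cliques with `w + 2` vertices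
  obtain ⟨R, hR⟩ : ∃ R : ℝ, R = (if U.card ≤ 2 then 0 else
    (2 : ℝ) ^ U.card * (((un P).card : ℝ) + 1) ^ w / (((un P).card : ℝ) + 1)) := ⟨_, rfl⟩
  have i5 := hDKU G (un P) U w hdis
  rw [← hR] at i5
  have i8 : R ≤ δ * K4b * A * u := by
    rw [hR]
    split_ifs with h
    · positivity
    · have hδ1' : δ = 1 := by
        rw [hδ, if_neg (by omega)]
      have h0 : (0 : ℝ) < ((un P).card : ℝ) + 1 := by positivity
      rw [hδ1', div_le_iff₀ h0, hK4b]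
      have h1 : (2 : ℝ) ^ U.card * (((un P).card : ℝ) + 1) ^ w ≤ 2 ^ H * (D * a) ^ w :=
        mul_le_mul (pow_le_pow_right₀ (by norm_num) hUH)
          (pow_le_pow_left₀ hX0 hXD _) (pow_nonneg hX0 _) (by positivity)
      have h3 : (2 : ℝ) ^ H * (D * a) ^ w * 1 ≤
          2 ^ H * (D * a) ^ w * (2 * u * (((un P).card : ℝ) + 1)) :=
        mul_le_mul_of_nonneg_left hXa (by positivity)
      rw [mul_pow, ← hA] at h1 h3
      linarith
  have i6 : ∑ z ∈ U, (kc G (nb G (un P) z) (w + 1) : ℝ) ≤ ∑ z ∈ U, nd G p w r a (un P) z +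
      (1 - et p w) * (1 + 2 * K1 * u) * (Lv * T) := by
    rw [hLT, mul_sum, ← sum_add_distrib]
    exact sum_le_sum hκ1
  have i7 : ((U.card : ℝ) - 1) / 2 * ∑ z ∈ U, (kc G (nb G (un P) z) w : ℝ) ≤
      h2 * (c2 + 1 / 4) * A + H * K2 * u * (Lv * T) := by
    have hnn : 0 ≤ H * K2 * u * (Lv * T) := by positivity
    rcases Nat.eq_zero_or_pos U.card with h0 | h0
    · rw [card_eq_zero] at h0
      rw [h0, sum_empty, mul_zero]
      positivity
    · have h1 : ∑ z ∈ U, (kc G (nb G (un P) z) w : ℝ) ≤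
          U.card * ((c2 + 1 / 4) * A) + K2 * u * (Lv * T) := by
        rw [hLT, mul_sum, ← nsmul_eq_mul, ← sum_const, ← sum_add_distrib]
        exact sum_le_sum hκ0
      have h3 : (1 : ℝ) ≤ U.card := by exact_mod_cast h0
      have h4 := mul_le_mul_of_nonneg_left h1 (by linarith : 0 ≤ ((U.card : ℝ) - 1) / 2)
      have h5 : ((U.card : ℝ) - 1) / 2 * (K2 * u * (Lv * T)) ≤ H * (K2 * u * (Lv * T)) :=
        mul_le_mul_of_nonneg_right (by linarith) (by positivity)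
      rw [hh2c]
      linarith
  -- the sums over the cliques
  have i2 := LIP8_split G (XX G p r a (un P ∪ U)) (r : ℝ) (un P) U hdis (p + 3)
  rw [← hM] at i2
  obtain ⟨N, hNd⟩ : ∃ N : ℝ, N = (kc G (un P) (p + 3) : ℝ) := ⟨_, rfl⟩
  have hN0 : 0 ≤ N := by
    rw [hNd]
    positivity
  have i3 : ∑ L ∈ clq G (un P) (p + 3), min (r : ℝ) (XX G p r a (un P ∪ U) L) +
      (1 - et p w) * T ≤ x * N + ∑ L ∈ clq G (un P) (p + 3), mm G p r (un P) L -
        et p w / 2 * T - et p w / 2 * max ((x : ℝ) - r) 0 * N := by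
    have hTs : ∑ L ∈ clq G (un P) (p + 3), ∑ z ∈ U, ww p r (nb G L z).card = T := by
      rw [hT, sum_comm]
      rfl
    have h := sum_le_sum (fun L hL =>
      hXSP G p w r a e C (et p w) _ P U hp0 hstr he.le hee1 hCB hW hη0.le hη1 L hL)
    rw [sum_add_distrib, ← mul_sum, hTs, hxR] at h
    have hR' : ∑ L ∈ clq G (un P) (p + 3), ((x : ℝ) + mm G p r (un P) L -
        et p w / 2 * ∑ z ∈ U, ww p r (nb G L z).card - et p w / 2 * max ((x : ℝ) - r) 0) =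
        x * N + ∑ L ∈ clq G (un P) (p + 3), mm G p r (un P) L -
        et p w / 2 * T - et p w / 2 * max ((x : ℝ) - r) 0 * N := by
      rw [sum_sub_distrib, sum_sub_distrib, sum_add_distrib, ← mul_sum, hTs, sum_const, sum_const,
        nsmul_eq_mul, nsmul_eq_mul, hNd, kc_eq]
      ring
    rw [hR'] at h
    exact h
  have i9 := hN a haN G e P he.le hee1 hstr.par (fun i => ⟨hstr.lo i, hstr.hi i⟩) hstr.mis
  rw [← hLv, ← hlv, ← hNd] at i9
  have i10 : (Lv * T) * ((1 - et p w) * (1 + 2 * K1 * u) + H * K2 * u + 2 * r * u) ≤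
      (Lv * T) * (1 - et p w / 2) := by
    refine mul_le_mul_of_nonneg_left ?_ hLT0
    have h1 : 0 ≤ et p w * (K1 * u) := by positivity
    rw [hK5] at hKu5
    linarith
  have hNPi := LIP8_prod G P hstr.par
  rw [← hNd] at hNPi
  have hNkW : N ≤ kc G (un P ∪ U) (p + 3) := by
    rw [hNd]
    exact_mod_cast kc_mono G subset_union_left _
  unfold Ph df
  rw [LIP8_bal p r a hrp, ← hLv, ← hlv, ← hc3, ← hh2, ← hA]
  have hsum : ∑ i, sz P i + x = (p + 3) * a + r := by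
    rw [← hx, hcardX]
    rfl
  have hKA : 0 ≤ (K4a + K4b) * A * u := by positivity
  rcases Nat.lt_or_ge r x with hxr | hxr
  · have hSa := hX' a haX x hxr (sz P) hsum (fun i => ⟨hstr.lo i, hstr.hi i⟩)
    rw [← hLv, ← hlv, ← hA] at hSa
    have hxr' : (r : ℝ) ≤ x := by exact_mod_cast hxr.le
    rw [max_eq_left (by linarith)] at i3
    refine LIP8_num2 hl hL hη1 (Nat.cast_nonneg r) hxr' hNkW hNPi i2 i3 i4 i5 i6 i7 i8 i9 i10 hSa ?_
    rw [hKX]
    have h1 : h2 * ((c2 + 1 / 4) * A) ≤ (H : ℝ) ^ 2 * ((c2 + 1 / 4) * A) :=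
      mul_le_mul_of_nonneg_right hh2H (by positivity)
    have h3 : h2 * (2 * c3 * A) ≤ (H : ℝ) ^ 2 * (2 * c3 * A) :=
      mul_le_mul_of_nonneg_right hh2H (by positivity)
    have h4 : 0 ≤ h2 * A := by positivity
    have h5 : δ * u ≤ 1 * 1 := mul_le_mul hδ1 hu1 hu0.le (by norm_num)
    have h6 : δ * u * ((K4a + K4b) * A) ≤ 1 * 1 * ((K4a + K4b) * A) :=
      mul_le_mul_of_nonneg_right h5 (by positivity)
    linarith
  · have hSa := hS a haS x hxr (sz P) hsum (fun i => by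
      have h1 := hstr.lo i
      have h3 := hstr.hi i
      have h4 : (1 / 2 : ℝ) * a ≤ (1 - e) * a :=
        mul_le_mul_of_nonneg_right (by linarith) ha00.le
      have h5 : (1 + e) * a ≤ 2 * (a : ℝ) := mul_le_mul_of_nonneg_right (by linarith) ha00.le
      constructor
      · have h6 : (a : ℝ) ≤ 2 * ((P i).card : ℝ) := by linarith
        exact_mod_cast h6
      · have h6 : ((P i).card : ℝ) ≤ 2 * (a : ℝ) := by linarith
        exact_mod_cast h6)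
    rw [← hLv, ← hlv, ← hA, ← hc1, ← hc2] at hSa
    have hx2 : h2 ≤ (x.choose 2 : ℝ) := by
      rw [hh2]
      exact_mod_cast Nat.choose_le_choose 2 hUx
    have hcoef : 0 ≤ 2 * c1 - c2 - 1 / 2 := by linarith
    refine LIP8_num1 hl hL hN0 (Nat.cast_nonneg x) hη0 (le_max_right _ _) hNkW hNPi i2 i3 i4 i5
      i6 i7 i8 i9 i10 hSa ?_ hcc ?_
    · exact mul_le_mul_of_nonneg_right (mul_le_mul_of_nonneg_left hx2 hcoef) hA0.le
    · have h1 := mul_le_mul_of_nonneg_left hKu4 (by positivity : 0 ≤ δ * A)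
      have h3 : δ * A ≤ h2 * A := mul_le_mul_of_nonneg_right hδh hA0.le
      linarith

end Pool.GU7
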